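import Pool.Agent.Helper87.VM.Stmts

set_option autoImplicit false

/-! Module GAL: the roots of `X^M + αX + β` with independent `α`, `β` have the full symmetric group. -/

namespace Pool.Agent.Helper87.VM

open MvPolynomial

section

variable {L : Type} [Field L] [Algebra ℂ L]

/-- a pair is algebraically independent iff it is an independent set with two elements -/
theorem gal_pair {a b : L} : AlgebraicIndependent ℂ ![a, b] ↔
    a ≠ b ∧ AlgebraicIndepOn ℂ id ({a, b} : Set L) := by
  constructor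
  · intro h
    refine ⟨?_, ?_⟩
    · intro hab
      have h1 := h.injective
      have h2 : (0 : Fin 2) = 1 := h1 (by simpa using hab)
      exact absurd h2 (by decide)
    · have h1 := h.coe_range
      have h2 : Set.range ![a, b] = {a, b} := by
        rw [Matrix.range_cons, Matrix.range_cons, Matrix.range_empty, Set.union_empty]
        rfl
      rw [h2] at h1
      exact h1
  · rintro ⟨hab, h⟩
    have h1 := AlgebraicIndependent.comp h
      (![⟨a, by simp⟩, ⟨b, by simp⟩] : Fin 2 → ({a, b} : Set L)) (by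
        intro i j hij
        fin_cases i <;> fin_cases j
        · rfl
        · exact absurd (congrArg Subtype.val hij) hab
        · exact absurd (congrArg Subtype.val hij).symm hab
        · rfl)
    have h2 : ((fun i : ({a, b} : Set L) => id (i : L)) ∘
        (![⟨a, by simp⟩, ⟨b, by simp⟩] : Fin 2 → ({a, b} : Set L))) = ![a, b] := by
      funext i
      fin_cases i <;> rfl
    rw [h2] at h1
    exact h1

/-- exchange for pairs -/
theorem gal_exch {a b c d : L} (hab : AlgebraicIndependent ℂ ![a, b])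
    (ha : IsAlgebraic (Algebra.adjoin ℂ ({c, d} : Set L)) a)
    (hb : IsAlgebraic (Algebra.adjoin ℂ ({c, d} : Set L)) b) :
    AlgebraicIndependent ℂ ![c, d] := by
  rw [gal_pair] at hab ⊢
  obtain ⟨hne, hind⟩ := hab
  have hI : (AlgebraicIndependent.matroid ℂ L).Indep {a, b} :=
    AlgebraicIndependent.matroid_indep_iff.2 hind
  have hsub : ({a, b} : Set L) ⊆ (AlgebraicIndependent.matroid ℂ L).closure {c, d} := by
    rw [AlgebraicIndependent.matroid_closure_eq]
    intro z hz
    rcases hz with h | h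
    · rw [h]
      exact ha
    · rw [Set.mem_singleton_iff] at h
      rw [h]
      exact hb
  have h1 : (2 : ℕ∞) ≤ (AlgebraicIndependent.matroid ℂ L).eRk {c, d} := by
    rw [← Matroid.eRk_closure_eq, ← Set.encard_pair hne, ← hI.eRk_eq_encard]
    exact Matroid.eRk_mono _ hsub
  have h2 := Matroid.eRk_le_encard (AlgebraicIndependent.matroid ℂ L) {c, d}
  have h4 : c ≠ d := by
    intro h
    rw [h, Set.pair_eq_singleton] at h2
    rw [h, Set.pair_eq_singleton] at h1
    rw [Set.encard_singleton] at h2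
    exact absurd (h1.trans h2) (by decide)
  refine ⟨h4, ?_⟩
  rw [← AlgebraicIndependent.matroid_indep_iff,
    Matroid.indep_iff_eRk_eq_encard_of_finite (Set.toFinite _)]
  rw [Set.encard_pair h4] at h2 ⊢
  exact le_antisymm h2 h1

theorem gal_lin {c d a D N : L} (hD : D ∈ Algebra.adjoin ℂ ({c, d} : Set L))
    (hN : N ∈ Algebra.adjoin ℂ ({c, d} : Set L)) (hD0 : D ≠ 0) (h : D * a + N = 0) :
    IsAlgebraic (Algebra.adjoin ℂ ({c, d} : Set L)) a := by
  refine ⟨Polynomial.C ⟨D, hD⟩ * Polynomial.X + Polynomial.C ⟨N, hN⟩, ?_, ?_⟩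
  · intro h0
    have h1 := congrArg (fun p => Polynomial.coeff p 1) h0
    simp only [Polynomial.coeff_add, Polynomial.coeff_C_mul, Polynomial.coeff_X_one, mul_one,
      Polynomial.coeff_C_succ, add_zero, Polynomial.coeff_zero] at h1
    exact hD0 (congrArg Subtype.val h1)
  · rw [map_add, map_mul, Polynomial.aeval_C, Polynomial.aeval_C, Polynomial.aeval_X]
    exact h

theorem gal_trinom {c d a A B : L} {M : ℕ} (hM : 2 ≤ M)
    (hA : A ∈ Algebra.adjoin ℂ ({c, d} : Set L))
    (hB : B ∈ Algebra.adjoin ℂ ({c, d} : Set L)) (h : a ^ M + A * a + B = 0) :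
    IsAlgebraic (Algebra.adjoin ℂ ({c, d} : Set L)) a := by
  refine ⟨Polynomial.X ^ M + Polynomial.C ⟨A, hA⟩ * Polynomial.X + Polynomial.C ⟨B, hB⟩, ?_, ?_⟩
  · intro h0
    have h1 := congrArg (fun p => Polynomial.coeff p M) h0
    have e1 : (Polynomial.C (⟨B, hB⟩ : Algebra.adjoin ℂ ({c, d} : Set L))).coeff M = 0 :=
      Polynomial.coeff_C_of_ne_zero (by omega)
    have e2 : (Polynomial.X : Polynomial (Algebra.adjoin ℂ ({c, d} : Set L))).coeff M = 0 :=
      Polynomial.coeff_X_of_ne_one (by omega)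
    simp only [Polynomial.coeff_add, Polynomial.coeff_C_mul, Polynomial.coeff_X_pow_self, e1, e2,
      mul_zero, add_zero, Polynomial.coeff_zero] at h1
    exact one_ne_zero h1
  · rw [map_add, map_add, map_mul, map_pow, Polynomial.aeval_C, Polynomial.aeval_C,
      Polynomial.aeval_X]
    exact h

end

theorem gal_ext {K0 Kc L : Type} [Field K0] [Field Kc] [Field L] [Algebra K0 Kc]
    [Algebra.IsAlgebraic K0 Kc] [IsAlgClosed L] (j0 : K0 →+* L) :
    ∃ j1 : Kc →+* L, ∀ a, j1 (algebraMap K0 Kc a) = j0 a := by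
  let _ : Algebra K0 L := j0.toAlgebra
  exact ⟨(IsAlgClosed.lift : Kc →ₐ[K0] L).toRingHom, fun a => AlgHom.commutes _ a⟩

theorem gal_hom {K0 L : Type} [Field K0] [Field L] [Algebra ℂ K0] [Algebra ℂ L] [IsAlgClosed L]
    (e1 e2 : K0 →ₐ[ℂ] L) : ∃ (S : IntermediateField ℂ L) (j1 : S →ₐ[ℂ] L),
      (∀ a, ∃ h : e1 a ∈ S, j1 ⟨e1 a, h⟩ = e2 a) ∧
      (∀ z : L, (∃ p : Polynomial K0, p ≠ 0 ∧ p.eval₂ (e1 : K0 →+* L) z = 0) → z ∈ S) := by
  let _ : Algebra K0 L := (e1 : K0 →+* L).toAlgebra
  have _ : IsScalarTower ℂ K0 L := IsScalarTower.of_algebraMap_eq (fun c => (e1.commutes c).symm)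
  obtain ⟨j, hj⟩ := gal_ext (K0 := K0) (Kc := algebraicClosure K0 L) (L := L) (e2 : K0 →+* L)
  have hmem : ∀ a, e1 a ∈ algebraicClosure K0 L := fun a =>
    (algebraicClosure K0 L).algebraMap_mem a
  have hja : ∀ a, j ⟨e1 a, hmem a⟩ = e2 a := fun a => hj a
  refine ⟨(algebraicClosure K0 L).restrictScalars ℂ,
    { toRingHom := j, commutes' := ?_ }, ?_, ?_⟩
  · intro c
    have h1 := hja (algebraMap ℂ K0 c)
    rw [e2.commutes] at h1
    rw [← h1]
    change j _ = j _
    congr 1
    apply Subtype.ext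
    exact (e1.commutes c).symm
  · intro a
    exact ⟨hmem a, hja a⟩
  · rintro z ⟨p, hp, hz⟩
    have : z ∈ algebraicClosure K0 L := mem_algebraicClosure_iff.2 ⟨p, hp, by
      rw [Polynomial.aeval_def]
      exact hz⟩
    exact this

theorem gal_field (O : Type) [CommRing O] [IsDomain O] [Algebra ℂ O] :
    ∃ (L : Type) (_ : Field L) (_ : Algebra ℂ L) (_ : IsAlgClosed L) (j : O →ₐ[ℂ] L),
      Function.Injective j := by
  let F := FractionRing O
  let L := AlgebraicClosure F
  let A : Algebra ℂ L := ((algebraMap F L).comp ((algebraMap O F).comp (algebraMap ℂ O))).toAlgebra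
  refine ⟨L, inferInstance, A, inferInstance,
    { toRingHom := (algebraMap F L).comp (algebraMap O F), commutes' := fun c => rfl }, ?_⟩
  intro a b hab
  exact IsFractionRing.injective O F ((algebraMap F L).injective hab)

section

variable {L : Type} [Field L] [Algebra ℂ L]

/-- the product of the linear factors is a trinomial -/
def GalF {m : ℕ} (R : Fin (m + 2) → L) (A B : L) : Prop :=
  ∏ i, (Polynomial.X - Polynomial.C (R i)) =
    Polynomial.X ^ (m + 2) + Polynomial.C A * Polynomial.X + Polynomial.C B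

theorem gal_coeff {m : ℕ} {R : Fin (m + 2) → L} {A B : L} (h : GalF R A B) (j : ℕ) (hj : j ≤ m + 2) :
    (-1) ^ j * aeval R (esymm (Fin (m + 2)) ℂ j) =
      (Polynomial.X ^ (m + 2) + Polynomial.C A * Polynomial.X + Polynomial.C B :
        Polynomial L).coeff (m + 2 - j) := by
  have hc : Multiset.card (Multiset.map R Finset.univ.val) = m + 2 := by
    rw [Multiset.card_map]
    exact Finset.card_fin (m + 2)
  have h1 := Multiset.prod_X_sub_C_coeff (Multiset.map R Finset.univ.val) (k := m + 2 - j)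
    (by rw [hc]; omega)
  rw [hc] at h1
  have h2 : m + 2 - (m + 2 - j) = j := by omega
  rw [h2, Multiset.map_map] at h1
  have h3 : (Multiset.map ((fun t => Polynomial.X - Polynomial.C t) ∘ R) Finset.univ.val).prod =
      ∏ i, (Polynomial.X - Polynomial.C (R i)) := rfl
  rw [h3, h] at h1
  rw [MvPolynomial.aeval_esymm_eq_multiset_esymm, ← h1]

theorem gal_root {m : ℕ} {R : Fin (m + 2) → L} {A B : L} (h : GalF R A B) (z : L) :
    z ^ (m + 2) + A * z + B = 0 ↔ ∃ i, z = R i := by
  have h1 := congrArg (Polynomial.eval z) h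
  rw [Polynomial.eval_prod] at h1
  simp only [Polynomial.eval_sub, Polynomial.eval_X, Polynomial.eval_C, Polynomial.eval_add,
    Polynomial.eval_mul, Polynomial.eval_pow] at h1
  rw [← h1, Finset.prod_eq_zero_iff]
  constructor
  · rintro ⟨i, -, hi⟩
    exact ⟨i, sub_eq_zero.1 hi⟩
  · rintro ⟨i, hi⟩
    exact ⟨i, Finset.mem_univ i, sub_eq_zero.2 hi⟩

theorem gal_double {m : ℕ} {R : Fin (m + 2) → L} {A B : L} (h : GalF R A B) {i j : Fin (m + 2)}
    (hij : i ≠ j) (hR : R i = R j) : ((m + 2 : ℕ) : L) * R i ^ (m + 1) + A = 0 := by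
  have h1 : ∏ l, (Polynomial.X - Polynomial.C (R l)) =
      (Polynomial.X - Polynomial.C (R i)) * ((Polynomial.X - Polynomial.C (R i)) *
        ∏ l ∈ (Finset.univ.erase i).erase j, (Polynomial.X - Polynomial.C (R l))) := by
    rw [← Finset.mul_prod_erase Finset.univ _ (Finset.mem_univ i),
      ← Finset.mul_prod_erase (Finset.univ.erase i) _
        (Finset.mem_erase.2 ⟨hij.symm, Finset.mem_univ j⟩), hR]
  rw [h] at h1
  have h2 := congrArg (fun p => Polynomial.eval (R i) (Polynomial.derivative p)) h1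
  simp only [Polynomial.derivative_add, Polynomial.derivative_mul, Polynomial.derivative_sub,
    Polynomial.derivative_X_pow, Polynomial.derivative_X, Polynomial.derivative_C,
    Polynomial.eval_add, Polynomial.eval_mul, Polynomial.eval_sub, Polynomial.eval_X,
    Polynomial.eval_C, Polynomial.eval_pow, Polynomial.eval_zero, Polynomial.eval_one,
    sub_self, zero_mul, mul_zero, add_zero, zero_add, mul_one, sub_zero] at h2
  have h3 : m + 2 - 1 = m + 1 := by omega
  rw [h3] at h2
  exact h2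

theorem gal_inj {m : ℕ} {R : Fin (m + 2) → L} {A B : L} (h : GalF R A B)
    (hAB : AlgebraicIndependent ℂ ![A, B]) : Function.Injective R := by
  intro i j hR
  by_contra hij
  have h1 := gal_double h hij hR
  have h2 := (gal_root h (R i)).2 ⟨i, rfl⟩
  obtain ⟨z, hz⟩ : ∃ z, z = R i := ⟨_, rfl⟩
  rw [← hz] at h1 h2
  have hzm : z ∈ Algebra.adjoin ℂ ({z, z} : Set L) := Algebra.subset_adjoin (Or.inl rfl)
  have hNm : ((m + 2 : ℕ) : L) * z ^ (m + 1) ∈ Algebra.adjoin ℂ ({z, z} : Set L) :=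
    mul_mem (natCast_mem _ _) (pow_mem hzm _)
  have h3 : AlgebraicIndependent ℂ ![z, z] := by
    apply gal_exch hAB
    · exact gal_lin (one_mem _) hNm one_ne_zero (by rw [one_mul]; linear_combination h1)
    · refine gal_lin (N := z ^ (m + 2) - (((m + 2 : ℕ) : L) * z ^ (m + 1)) * z) (one_mem _)
        (sub_mem (pow_mem hzm _) (mul_mem hNm hzm)) one_ne_zero ?_
      rw [one_mul]
      linear_combination h2 - z * h1
  exact (gal_pair.1 h3).1 rfl

theorem gal_A {m : ℕ} {R : Fin (m + 2) → L} {A B : L} (h : GalF R A B) (i j : Fin (m + 2)) :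
    (R i - R j) * A + (R i ^ (m + 2) - R j ^ (m + 2)) = 0 := by
  have h1 := (gal_root h (R i)).2 ⟨i, rfl⟩
  have h2 := (gal_root h (R j)).2 ⟨j, rfl⟩
  linear_combination h1 - h2

theorem gal_rij {m : ℕ} {R : Fin (m + 2) → L} {A B : L} (h : GalF R A B)
    (hAB : AlgebraicIndependent ℂ ![A, B]) {i j : Fin (m + 2)} (hij : i ≠ j) :
    AlgebraicIndependent ℂ ![R i, R j] := by
  have hne : R i - R j ≠ 0 := sub_ne_zero.2 (fun h1 => hij (gal_inj h hAB h1))
  have him : R i ∈ Algebra.adjoin ℂ ({R i, R j} : Set L) := Algebra.subset_adjoin (Or.inl rfl)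
  have hjm : R j ∈ Algebra.adjoin ℂ ({R i, R j} : Set L) := Algebra.subset_adjoin (Or.inr rfl)
  have h1 := gal_A h i j
  have h2 := (gal_root h (R i)).2 ⟨i, rfl⟩
  apply gal_exch hAB
  · exact gal_lin (sub_mem him hjm) (sub_mem (pow_mem him _) (pow_mem hjm _)) hne h1
  · refine gal_lin (N := R i ^ (m + 2) * (R i - R j) - (R i ^ (m + 2) - R j ^ (m + 2)) * R i)
      (sub_mem him hjm) (sub_mem (mul_mem (pow_mem him _) (sub_mem him hjm))
        (mul_mem (sub_mem (pow_mem him _) (pow_mem hjm _)) him)) hne ?_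
    linear_combination (R i - R j) * h2 - R i * h1

theorem gal_A_eq {m : ℕ} {R : Fin (m + 2) → L} {A B : L} (h : GalF R A B)
    {i j : Fin (m + 2)} (hij : R i ≠ R j) :
    -(R i ^ (m + 2) - R j ^ (m + 2)) / (R i - R j) = A := by
  have hne : R i - R j ≠ 0 := sub_ne_zero.2 hij
  rw [div_eq_iff hne]
  linear_combination -(gal_A h i j)

theorem gal_B_eq {m : ℕ} {R : Fin (m + 2) → L} {A B : L} (h : GalF R A B) (i : Fin (m + 2)) :
    -(R i ^ (m + 2) + A * R i) = B := by
  linear_combination -((gal_root h (R i)).2 ⟨i, rfl⟩)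

end

/-- one transposition -/
theorem gal_swap {m : ℕ} {O L : Type} [CommRing O] [Algebra ℂ O] [Field L] [Algebra ℂ L]
    [IsAlgClosed L] (j : O →ₐ[ℂ] L) (hj : Function.Injective j) (ι : O →ₐ[ℂ] O) (x y : O)
    (hx : ι x = y) (hy : ι y = x) (R : Fin (m + 2) → L) (A B : L) (h : GalF R A B)
    (hAB : AlgebraicIndependent ℂ ![A, B]) (hR0 : R 0 = j x) (hR1 : R 1 = j y)
    (hR2 : ∀ n, n ≠ 0 → n ≠ 1 → ∃ s : O, R n = j s ∧ ι s = s)
    (i0 j0 : Fin (m + 2)) (hij : i0 ≠ j0) (P : MvPolynomial (Fin (m + 2)) ℂ)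
    (hP : aeval R P = 0) : aeval (fun l => R (Equiv.swap i0 j0 l)) P = 0 := by
  classical
  have hinj := gal_inj h hAB
  have h01 : (0 : Fin (m + 2)) ≠ 1 := by
    intro h1
    have := congrArg Fin.val h1
    simp at this
  have hi1 := algebraicIndependent_iff_injective_aeval.1 (gal_rij h hAB hij)
  have hi2 := algebraicIndependent_iff_injective_aeval.1 (gal_rij h hAB h01)
  obtain ⟨e1, he1⟩ : ∃ e1 : FractionRing (MvPolynomial (Fin 2) ℂ) →ₐ[ℂ] L,
      ∀ q, e1 (algebraMap _ _ q) = aeval ![R i0, R j0] q :=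
    ⟨IsFractionRing.liftAlgHom (K := FractionRing (MvPolynomial (Fin 2) ℂ)) hi1, by
      intro q
      rw [IsFractionRing.liftAlgHom_apply, IsFractionRing.lift_algebraMap]
      rfl⟩
  obtain ⟨e2, he2⟩ : ∃ e2 : FractionRing (MvPolynomial (Fin 2) ℂ) →ₐ[ℂ] L,
      ∀ q, e2 (algebraMap _ _ q) = aeval ![R 0, R 1] q :=
    ⟨IsFractionRing.liftAlgHom (K := FractionRing (MvPolynomial (Fin 2) ℂ)) hi2, by
      intro q
      rw [IsFractionRing.liftAlgHom_apply, IsFractionRing.lift_algebraMap]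
      rfl⟩
  obtain ⟨u, hu⟩ : ∃ u : FractionRing (MvPolynomial (Fin 2) ℂ), u =
      algebraMap (MvPolynomial (Fin 2) ℂ) (FractionRing (MvPolynomial (Fin 2) ℂ)) (X 0) := ⟨_, rfl⟩
  obtain ⟨v, hv⟩ : ∃ v : FractionRing (MvPolynomial (Fin 2) ℂ), v =
      algebraMap (MvPolynomial (Fin 2) ℂ) (FractionRing (MvPolynomial (Fin 2) ℂ)) (X 1) := ⟨_, rfl⟩
  have e1u : e1 u = R i0 := by rw [hu, he1, aeval_X]; rfl
  have e1v : e1 v = R j0 := by rw [hv, he1, aeval_X]; rfl
  have e2u : e2 u = R 0 := by rw [hu, he2, aeval_X]; rfl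
  have e2v : e2 v = R 1 := by rw [hv, he2, aeval_X]; rfl
  obtain ⟨a0, ha0⟩ : ∃ a0 : FractionRing (MvPolynomial (Fin 2) ℂ),
      a0 = -(u ^ (m + 2) - v ^ (m + 2)) / (u - v) := ⟨_, rfl⟩
  obtain ⟨b0, hb0⟩ : ∃ b0 : FractionRing (MvPolynomial (Fin 2) ℂ),
      b0 = -(u ^ (m + 2) + a0 * u) := ⟨_, rfl⟩
  have e1a : e1 a0 = A := by
    rw [ha0, map_div₀, map_neg, map_sub, map_sub, map_pow, map_pow, e1u, e1v]
    exact gal_A_eq h (fun h1 => hij (hinj h1))
  have e2a : e2 a0 = A := by
    rw [ha0, map_div₀, map_neg, map_sub, map_sub, map_pow, map_pow, e2u, e2v]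
    exact gal_A_eq h (fun h1 => h01 (hinj h1))
  have e1b : e1 b0 = B := by
    rw [hb0, map_neg, map_add, map_mul, map_pow, e1a, e1u]
    exact gal_B_eq h i0
  have e2b : e2 b0 = B := by
    rw [hb0, map_neg, map_add, map_mul, map_pow, e2a, e2u]
    exact gal_B_eq h 0
  obtain ⟨S, j1, hS1, hS2⟩ := gal_hom e1 e2
  have hmem : ∀ l, R l ∈ S := by
    intro l
    apply hS2
    refine ⟨Polynomial.X ^ (m + 2) + Polynomial.C a0 * Polynomial.X + Polynomial.C b0, ?_, ?_⟩
    · intro h0
      have h1 := congrArg (fun p => Polynomial.coeff p (m + 2)) h0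
      have e1 : (Polynomial.C b0).coeff (m + 2) = 0 := Polynomial.coeff_C_of_ne_zero (by omega)
      have e2 : (Polynomial.X : Polynomial (FractionRing (MvPolynomial (Fin 2) ℂ))).coeff (m + 2)
          = 0 := Polynomial.coeff_X_of_ne_one (by omega)
      simp only [Polynomial.coeff_add, Polynomial.coeff_C_mul, Polynomial.coeff_X_pow_self, e1, e2,
        mul_zero, add_zero, Polynomial.coeff_zero] at h1
      exact one_ne_zero h1
    · rw [Polynomial.eval₂_add, Polynomial.eval₂_add, Polynomial.eval₂_mul, Polynomial.eval₂_pow,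
        Polynomial.eval₂_X, Polynomial.eval₂_C, Polynomial.eval₂_C]
      change R l ^ (m + 2) + e1 a0 * R l + e1 b0 = 0
      rw [e1a, e1b]
      exact (gal_root h (R l)).2 ⟨l, rfl⟩
  obtain ⟨k, hk⟩ : ∃ k : Fin (m + 2) → S, ∀ l, ((k l : S) : L) = R l :=
    ⟨fun l => ⟨R l, hmem l⟩, fun l => rfl⟩
  have hj1 : ∀ (a : FractionRing (MvPolynomial (Fin 2) ℂ)) (s : S), (s : L) = e1 a → j1 s = e2 a := by
    intro a s hs
    obtain ⟨h1, h2⟩ := hS1 a
    rw [← h2]
    congr 1
    exact Subtype.ext hs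
  have hk0 : j1 (k i0) = R 0 := by rw [← e2u]; exact hj1 u _ (by rw [hk, e1u])
  have hk1 : j1 (k j0) = R 1 := by rw [← e2v]; exact hj1 v _ (by rw [hk, e1v])
  have hkinj : Function.Injective k := by
    intro l l' hl
    apply hinj
    rw [← hk, ← hk, hl]
  have hj1inj : Function.Injective j1 := j1.toRingHom.injective
  have hroot : ∀ l, ∃ n, j1 (k l) = R n := by
    intro l
    apply (gal_root h _).1
    obtain ⟨ha, ha'⟩ := hS1 a0
    obtain ⟨hb, hb'⟩ := hS1 b0
    have h1 : (k l) ^ (m + 2) + ⟨e1 a0, ha⟩ * k l + ⟨e1 b0, hb⟩ = 0 := by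
      apply Subtype.ext
      change ((k l : S) : L) ^ (m + 2) + e1 a0 * ((k l : S) : L) + e1 b0 = 0
      rw [hk, e1a, e1b]
      exact (gal_root h (R l)).2 ⟨l, rfl⟩
    have h2 := congrArg j1 h1
    rw [map_add, map_add, map_mul, map_pow, ha', hb', e2a, e2b, map_zero] at h2
    exact h2
  have ht : ∀ l, ∃ t : O, j t = j1 (k l) ∧ j (ι t) = j1 (k (Equiv.swap i0 j0 l)) := by
    intro l
    by_cases h1 : l = i0
    · refine ⟨x, ?_, ?_⟩
      · rw [h1, hk0, hR0]
      · rw [h1, Equiv.swap_apply_left, hx, hk1, hR1]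
    · by_cases h2 : l = j0
      · refine ⟨y, ?_, ?_⟩
        · rw [h2, hk1, hR1]
        · rw [h2, Equiv.swap_apply_right, hy, hk0, hR0]
      · obtain ⟨n, hn⟩ := hroot l
        have hn0 : n ≠ 0 := by
          intro h3
          rw [h3, ← hk0] at hn
          exact h1 (hkinj (hj1inj hn))
        have hn1 : n ≠ 1 := by
          intro h3
          rw [h3, ← hk1] at hn
          exact h2 (hkinj (hj1inj hn))
        obtain ⟨s, hs, hs'⟩ := hR2 n hn0 hn1
        refine ⟨s, ?_, ?_⟩
        · rw [hn, hs]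
        · rw [Equiv.swap_apply_of_ne_of_ne h1 h2, hs', hn, hs]
  choose t ht1 ht2 using ht
  -- the chain
  have c1 : aeval k P = 0 := by
    have h1 : S.val (aeval k P) = aeval (fun l => S.val (k l)) P := comp_aeval_apply k S.val P
    have h2 : (fun l => S.val (k l)) = R := by
      funext l
      exact hk l
    rw [h2, hP] at h1
    exact Subtype.ext h1
  have c2 : aeval t P = 0 := by
    apply hj
    rw [map_zero, comp_aeval_apply t j P]
    have h2 : (fun l => j (t l)) = fun l => j1 (k l) := funext ht1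
    rw [h2, ← comp_aeval_apply k j1 P, c1, map_zero]
  have c3 : aeval (fun l => j (ι (t l))) P = 0 := by
    rw [← comp_aeval_apply (fun l => ι (t l)) j P, ← comp_aeval_apply t ι P, c2, map_zero, map_zero]
  have c4 : aeval (fun l => k (Equiv.swap i0 j0 l)) P = 0 := by
    apply hj1inj
    rw [map_zero, comp_aeval_apply (fun l => k (Equiv.swap i0 j0 l)) j1 P]
    have h2 : (fun l => j1 (k (Equiv.swap i0 j0 l))) = fun l => j (ι (t l)) :=
      funext fun l => (ht2 l).symm
    rw [h2, c3]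
  have c5 : S.val (aeval (fun l => k (Equiv.swap i0 j0 l)) P) =
      aeval (fun l => S.val (k (Equiv.swap i0 j0 l))) P := comp_aeval_apply _ S.val P
  have c6 : (fun l => S.val (k (Equiv.swap i0 j0 l))) = fun l => R (Equiv.swap i0 j0 l) := by
    funext l
    exact hk _
  rw [c4, map_zero, c6] at c5
  exact c5.symm

theorem st_GAL (hA : ST_GALA) : ST_GAL := by
  intro M hM
  obtain ⟨m, rfl⟩ : ∃ m, M = m + 2 := ⟨M - 2, by omega⟩
  obtain ⟨O, _, _, _, x, y, r, ι, α, β, hF, hxy, hx, hy, hr⟩ := hA m (by omega)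
  obtain ⟨L, _, _, _, j, hj⟩ := gal_field O
  obtain ⟨R, hRd⟩ : ∃ R : Fin (m + 2) → L,
      R = Fin.cons (j x) (Fin.cons (j y) fun i => j (r i)) := ⟨_, rfl⟩
  have hR0 : R 0 = j x := by rw [hRd]; rfl
  have hR1 : R 1 = j y := by rw [hRd]; rfl
  have hR2 : ∀ n, n ≠ 0 → n ≠ 1 → ∃ s : O, R n = j s ∧ ι s = s := by
    intro n
    refine Fin.cases ?_ (fun n' => ?_) n
    · intro h0
      exact absurd rfl h0
    · intro _ h1
      rw [hRd]
      revert h1
      refine Fin.cases ?_ (fun n'' => ?_) n'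
      · intro h1
        exact absurd rfl h1
      · intro _
        exact ⟨r n'', rfl, hr n''⟩
  have hG : GalF R (j α) (j β) := by
    unfold GalF
    have h1 := congrArg (Polynomial.map (j : O →+* L)) hF
    rw [Polynomial.map_mul, Polynomial.map_mul, Polynomial.map_prod, Polynomial.map_add,
      Polynomial.map_add, Polynomial.map_mul, Polynomial.map_pow] at h1
    simp only [Polynomial.map_sub, Polynomial.map_X, Polynomial.map_C] at h1
    rw [Fin.prod_univ_succ, Fin.prod_univ_succ, hRd]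
    rw [mul_assoc] at h1
    exact h1
  have hxy' : AlgebraicIndependent ℂ ![j x, j y] := by
    have h1 := hxy.map' hj
    have h2 : (j ∘ ![x, y]) = ![j x, j y] := by
      funext i
      fin_cases i <;> rfl
    rw [h2] at h1
    exact h1
  have hAB : AlgebraicIndependent ℂ ![j α, j β] := by
    apply gal_exch hxy'
    · refine gal_trinom (M := m + 2) (by omega) (Algebra.subset_adjoin (Or.inl rfl))
        (Algebra.subset_adjoin (Or.inr rfl)) ?_
      rw [← hR0]
      exact (gal_root hG (R 0)).2 ⟨0, rfl⟩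
    · refine gal_trinom (M := m + 2) (by omega) (Algebra.subset_adjoin (Or.inl rfl))
        (Algebra.subset_adjoin (Or.inr rfl)) ?_
      rw [← hR1]
      exact (gal_root hG (R 1)).2 ⟨1, rfl⟩
  refine ⟨L, inferInstance, inferInstance, R, ?_, ?_, ?_⟩
  · intro i hi1 hi2
    have h1 := gal_coeff hG i (by omega)
    have e0 : (Polynomial.X ^ (m + 2) : Polynomial L).coeff (m + 2 - i) = 0 := by
      rw [Polynomial.coeff_X_pow, if_neg (by omega)]
    have e1 : (Polynomial.C (j β)).coeff (m + 2 - i) = 0 :=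
      Polynomial.coeff_C_of_ne_zero (by omega)
    have e2 : (Polynomial.X : Polynomial L).coeff (m + 2 - i) = 0 :=
      Polynomial.coeff_X_of_ne_one (by omega)
    simp only [Polynomial.coeff_add, Polynomial.coeff_C_mul, e0, e1, e2, mul_zero, add_zero] at h1
    rcases mul_eq_zero.1 h1 with h2 | h2
    · exact absurd h2 (pow_ne_zero _ (neg_ne_zero.2 one_ne_zero))
    · exact h2
  · have h1 := gal_coeff hG (m + 1) (by omega)
    have h2 := gal_coeff hG (m + 2) (by omega)
    have g1 : m + 2 - (m + 1) = 1 := by omega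
    have g2 : m + 2 - (m + 2) = 0 := by omega
    have g3 : m + 2 - 1 = m + 1 := by omega
    rw [g1] at h1
    rw [g2] at h2
    have e0 : (Polynomial.X ^ (m + 2) : Polynomial L).coeff 1 = 0 := by
      rw [Polynomial.coeff_X_pow, if_neg (by omega)]
    have e0' : (Polynomial.X ^ (m + 2) : Polynomial L).coeff 0 = 0 := by
      rw [Polynomial.coeff_X_pow, if_neg (by omega)]
    have e1 : (Polynomial.C (j β)).coeff 1 = 0 := Polynomial.coeff_C_of_ne_zero one_ne_zero
    simp only [Polynomial.coeff_add, Polynomial.coeff_C_mul, e0, e1, Polynomial.coeff_X_one,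
      mul_one, zero_add, add_zero] at h1
    simp only [Polynomial.coeff_add, Polynomial.coeff_C_mul, e0', Polynomial.coeff_C_zero,
      Polynomial.coeff_X_zero, mul_zero, zero_add, add_zero] at h2
    rw [g3]
    obtain ⟨c, hc⟩ : ∃ c, c = aeval R (esymm (Fin (m + 2)) ℂ (m + 1)) := ⟨_, rfl⟩
    obtain ⟨d, hd⟩ : ∃ d, d = aeval R (esymm (Fin (m + 2)) ℂ (m + 2)) := ⟨_, rfl⟩
    rw [← hc] at h1 ⊢
    rw [← hd] at h2 ⊢
    have hcm : c ∈ Algebra.adjoin ℂ ({c, d} : Set L) := Algebra.subset_adjoin (Or.inl rfl)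
    have hdm : d ∈ Algebra.adjoin ℂ ({c, d} : Set L) := Algebra.subset_adjoin (Or.inr rfl)
    have hn1 : (-1 : L) ∈ Algebra.adjoin ℂ ({c, d} : Set L) := neg_mem (one_mem _)
    have hαm : j α ∈ Algebra.adjoin ℂ ({c, d} : Set L) := by
      rw [← h1]
      exact mul_mem (pow_mem hn1 _) hcm
    have hβm : j β ∈ Algebra.adjoin ℂ ({c, d} : Set L) := by
      rw [← h2]
      exact mul_mem (pow_mem hn1 _) hdm
    apply gal_exch hAB
    · exact gal_lin (one_mem _) (neg_mem hαm) one_ne_zero (by ring)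
    · exact gal_lin (one_mem _) (neg_mem hβm) one_ne_zero (by ring)
  · intro σ
    induction σ using Equiv.Perm.swap_induction_on with
    | one =>
      intro P hP
      exact hP
    | swap_mul f a b hab ih =>
      intro P hP
      have h1 := ih P hP
      have h2 : aeval R (rename f P) = 0 := by
        rw [aeval_rename]
        exact h1
      have h3 := gal_swap j hj ι x y hx hy R (j α) (j β) hG hAB hR0 hR1 hR2 a b hab _ h2
      rw [aeval_rename] at h3
      exact h3

end Pool.Agent.Helper87.VM
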